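import Mathlib

/-!
Lower bounds for tournaments with Schütte's property `S_k`.
-/

namespace Pool.Agent.H77.Schutte

open Finset

/-- A tournament on `V`: `E u v` is the arc `u → v`; no loops, and exactly one arc between any two
distinct vertices. -/
def IsTournament {V : Type} (E : V → V → Prop) : Prop :=
  (∀ v, ¬ E v v) ∧ ∀ u v, u ≠ v → ((E u v ∧ ¬ E v u) ∨ (E v u ∧ ¬ E u v))

/-- Property `S_k`: every set of exactly `k` vertices is dominated by some vertex. -/
def HasS {V : Type} (E : V → V → Prop) (k : ℕ) : Prop :=
  ∀ S : Finset V, S.card = k → ∃ v, ∀ w ∈ S, E v w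

section
variable {V : Type} [Fintype V] (E : V → V → Prop)

open Classical in
/-- The set of common dominators of `A`. -/
noncomputable def dom (A : Finset V) : Finset V := univ.filter (fun v => ∀ w ∈ A, E v w)

variable {E}

open Classical in
lemma mem_dom {A : Finset V} {v : V} : v ∈ dom E A ↔ ∀ w ∈ A, E v w := by
  simp [dom]

omit [Fintype V] in
lemma asymm (hT : IsTournament E) {u v : V} (h : E u v) : ¬ E v u := by
  intro h'
  by_cases huv : u = v
  · subst huv; exact hT.1 _ h
  · rcases hT.2 u v huv with ⟨_, h2⟩ | ⟨_, h2⟩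
    · exact h2 h'
    · exact h2 h

lemma dom_anti {A B : Finset V} (h : A ⊆ B) : dom E B ⊆ dom E A := by
  intro v hv
  rw [mem_dom] at hv ⊢
  exact fun w hw => hv w (h hw)

lemma dom_nonempty {k : ℕ} (hS : HasS E k) (hk : k ≤ Fintype.card V) (A : Finset V)
    (hA : A.card ≤ k) : (dom E A).Nonempty := by
  obtain ⟨B, hAB, hB⟩ := Finset.exists_superset_card_eq hA hk
  obtain ⟨v, hv⟩ := hS B hB
  exact ⟨v, mem_dom.2 fun w hw => hv w (hAB hw)⟩

/-- `LB E k j h`: every set of at most `k - j` vertices has at least `h` common dominators. -/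
def LB (E : V → V → Prop) (k j h : ℕ) : Prop :=
  ∀ A : Finset V, A.card + j ≤ k → h ≤ (dom E A).card

lemma LB_zero {k : ℕ} (hS : HasS E k) (hk : k ≤ Fintype.card V) : LB E k 0 1 := by
  intro A hA
  exact Finset.card_pos.2 (dom_nonempty hS hk A (by omega))

open Classical in
lemma LB_one {k : ℕ} (hT : IsTournament E) (hS : HasS E k) (hk : k ≤ Fintype.card V) :
    LB E k 1 (k + 1) := by
  intro A hA
  by_contra hlt
  have h1 : (dom E A).card ≤ k := by omega
  obtain ⟨y, hy⟩ := dom_nonempty hS hk (dom E A) h1
  have h2 : (insert y A).card ≤ k := (Finset.card_insert_le _ _).trans (by omega)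
  obtain ⟨z, hz⟩ := dom_nonempty hS hk (insert y A) h2
  have hzA : z ∈ dom E A := dom_anti (Finset.subset_insert _ _) hz
  have hzy : E z y := mem_dom.1 hz y (Finset.mem_insert_self _ _)
  exact asymm hT (mem_dom.1 hy z hzA) hzy

open Classical in
lemma dom_insert (a : V) (A : Finset V) :
    dom E (insert a A) = (dom E A).filter (fun v => E v a) := by
  ext v
  simp [mem_dom, Finset.mem_insert, and_comm]

open Classical in
lemma LB_double {k j h : ℕ} (hT : IsTournament E) (hS : HasS E k) (hk : k ≤ Fintype.card V)
    (hL : LB E k j h) : LB E k (j + 1) (2 * h + 1) := by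
  intro A hA
  set D := dom E A with hD
  have hDne : D.Nonempty := dom_nonempty hS hk A (by omega)
  have hge : ∀ a ∈ D, h ≤ (D.filter (fun v => E v a)).card := by
    intro a _
    have := hL (insert a A) (by have := Finset.card_insert_le a A; omega)
    rwa [dom_insert] at this
  have hsum1 : D.card * h ≤ ∑ a ∈ D, (D.filter (fun v => E v a)).card := by
    rw [← smul_eq_mul]
    exact Finset.card_nsmul_le_sum _ _ _ hge
  have hswap : ∑ a ∈ D, (D.filter (fun v => E v a)).card
      = ∑ a ∈ D, (D.filter (fun v => E a v)).card := by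
    simp only [Finset.card_filter]
    exact Finset.sum_comm
  have hpair : ∀ a ∈ D, (D.filter (fun v => E v a)).card + (D.filter (fun v => E a v)).card + 1
      ≤ D.card := by
    intro a ha
    have hdis : Disjoint (D.filter (fun v => E v a)) (D.filter (fun v => E a v)) := by
      rw [Finset.disjoint_left]
      intro v hv hv'
      exact asymm hT (Finset.mem_filter.1 hv).2 (Finset.mem_filter.1 hv').2
    have hnot : a ∉ (D.filter (fun v => E v a)) ∪ (D.filter (fun v => E a v)) := by
      simp [hT.1 a]
    have hsub : insert a ((D.filter (fun v => E v a)) ∪ (D.filter (fun v => E a v))) ⊆ D := by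
      intro v hv
      rcases Finset.mem_insert.1 hv with rfl | hv
      · exact ha
      · rcases Finset.mem_union.1 hv with hv | hv
        · exact (Finset.mem_filter.1 hv).1
        · exact (Finset.mem_filter.1 hv).1
    have := Finset.card_le_card hsub
    rw [Finset.card_insert_of_notMem hnot, Finset.card_union_of_disjoint hdis] at this
    exact this
  have hsum2 : ∑ a ∈ D, ((D.filter (fun v => E v a)).card + (D.filter (fun v => E a v)).card + 1)
      ≤ D.card * D.card := by
    rw [← smul_eq_mul]
    exact Finset.sum_le_card_nsmul _ _ _ hpair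
  rw [Finset.sum_add_distrib, Finset.sum_add_distrib, ← hswap] at hsum2
  simp only [Finset.sum_const, smul_eq_mul, mul_one] at hsum2
  have h3 : D.card * (2 * h + 1) ≤ D.card * D.card := by nlinarith
  exact Nat.le_of_mul_le_mul_left h3 (Finset.card_pos.2 hDne)

lemma LB_halve {k j h : ℕ} (hT : IsTournament E) (hS : HasS E k) (hk : k ≤ Fintype.card V)
    (hL : LB E k j h) (s : ℕ) : LB E k (j + s) (2 ^ s * (h + 1) - 1) := by
  induction s with
  | zero => simpa using hL
  | succ s ih =>
    have := LB_double hT hS hk ih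
    have h1 : 1 ≤ 2 ^ s * (h + 1) := Nat.one_le_iff_ne_zero.2 (by positivity)
    have h2 : 2 * (2 ^ s * (h + 1) - 1) + 1 = 2 ^ (s + 1) * (h + 1) - 1 := by
      rw [pow_succ]
      have : 2 ^ s * 2 * (h + 1) = 2 * (2 ^ s * (h + 1)) := by ring
      omega
    rw [h2] at this
    exact this

open Classical in
/-- The averaging step. -/
lemma step (hT : IsTournament E) {A S : Finset V} {h : ℕ}
    (hA : ∀ a : V, h ≤ (dom E (insert a A)).card) (hSA : S ⊆ dom E A)
    (hlt : S.card < (dom E A).card) :
    ∃ v ∈ dom E A \ S, (dom E (insert v S)).card * ((dom E A).card - S.card)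
      ≤ (dom E S).card * ((dom E A).card - h - S.card) := by
  set D := dom E A with hD
  set R := dom E S with hR
  by_contra hcon
  push Not at hcon
  have hcard : (D \ S).card = D.card - S.card := Finset.card_sdiff_of_subset hSA
  have hpos : 0 < (D \ S).card := by omega
  have hne : (D \ S).Nonempty := Finset.card_pos.1 hpos
  have h1 : ∑ v ∈ D \ S, (R.card * (D.card - h - S.card))
      < ∑ v ∈ D \ S, ((dom E (insert v S)).card * (D.card - S.card)) :=
    Finset.sum_lt_sum_of_nonempty hne hcon
  have h1 : (D.card - S.card) * (R.card * (D.card - h - S.card))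
      < (∑ v ∈ D \ S, (dom E (insert v S)).card) * (D.card - S.card) := by
    rw [Finset.sum_mul]
    rw [Finset.sum_const, smul_eq_mul, hcard] at h1
    exact h1
  have h2 : ∑ v ∈ D \ S, (dom E (insert v S)).card
      = ∑ a ∈ R, ((D \ S).filter (fun v => E a v)).card := by
    have : ∀ v ∈ D \ S, (dom E (insert v S)).card = (R.filter (fun a => E a v)).card := by
      intro v _
      rw [dom_insert]
    rw [Finset.sum_congr rfl this]
    simp only [Finset.card_filter]
    exact Finset.sum_comm
  have h3 : ∀ a ∈ R, ((D \ S).filter (fun v => E a v)).card ≤ D.card - h - S.card := by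
    intro a ha
    have haS : S ⊆ D.filter (fun v => E a v) := by
      intro w hw
      exact Finset.mem_filter.2 ⟨hSA hw, mem_dom.1 ha w hw⟩
    have e1 : (D \ S).filter (fun v => E a v) = (D.filter (fun v => E a v)) \ S := by
      ext v; simp only [Finset.mem_filter, Finset.mem_sdiff]; tauto
    rw [e1, Finset.card_sdiff_of_subset haS]
    have hdis : Disjoint (D.filter (fun v => E a v)) (D.filter (fun v => E v a)) := by
      rw [Finset.disjoint_left]
      intro v hv hv'
      exact asymm hT (Finset.mem_filter.1 hv).2 (Finset.mem_filter.1 hv').2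
    have hsub : (D.filter (fun v => E a v)) ∪ (D.filter (fun v => E v a)) ⊆ D := by
      intro v hv
      rcases Finset.mem_union.1 hv with hv | hv
      · exact (Finset.mem_filter.1 hv).1
      · exact (Finset.mem_filter.1 hv).1
    have hc := Finset.card_le_card hsub
    rw [Finset.card_union_of_disjoint hdis] at hc
    have h4 := hA a
    rw [dom_insert, ← hD] at h4
    omega
  have h4 : ∑ a ∈ R, ((D \ S).filter (fun v => E a v)).card ≤ R.card * (D.card - h - S.card) := by
    rw [← smul_eq_mul]
    exact Finset.sum_le_card_nsmul _ _ _ h3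
  rw [h2] at h1
  have h5 : (∑ a ∈ R, ((D \ S).filter (fun v => E a v)).card) * (D.card - S.card)
      ≤ (D.card - S.card) * (R.card * (D.card - h - S.card)) := by
    rw [mul_comm]
    exact Nat.mul_le_mul_left _ h4
  omega

/-- The chain of greedy lower bounds. -/
def ch (n d h : ℕ) : ℕ → ℕ
  | 0 => n
  | i + 1 => ch n d h i * (d - h - i) / (d - i)

open Classical in
lemma chain (hT : IsTournament E) {A : Finset V} {h : ℕ}
    (hA : ∀ a : V, h ≤ (dom E (insert a A)).card) (i : ℕ) (hi : i ≤ (dom E A).card) :
    ∃ S ⊆ dom E A, S.card = i ∧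
      (dom E S).card ≤ ch (Fintype.card V) (dom E A).card h i := by
  induction i with
  | zero =>
    refine ⟨∅, Finset.empty_subset _, rfl, ?_⟩
    simp only [ch]
    exact Finset.card_le_univ _
  | succ i ih =>
    obtain ⟨S, hSA, hSc, hSb⟩ := ih (by omega)
    obtain ⟨v, hv, hvb⟩ := step hT hA hSA (by omega)
    have hv' := Finset.mem_sdiff.1 hv
    refine ⟨insert v S, ?_, ?_, ?_⟩
    · intro w hw
      rcases Finset.mem_insert.1 hw with rfl | hw
      · exact hv'.1
      · exact hSA hw
    · rw [Finset.card_insert_of_notMem hv'.2, hSc]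
    · simp only [ch]
      rw [Nat.le_div_iff_mul_le (by omega)]
      rw [hSc] at hvb
      exact hvb.trans (Nat.mul_le_mul_right _ hSb)

lemma ch_mono {n n' d d' h : ℕ} (hn : n ≤ n') (hd : d ≤ d') (i : ℕ) (hi : i ≤ d) :
    ch n d h i ≤ ch n' d' h i := by
  induction i with
  | zero => simpa [ch] using hn
  | succ i ih =>
    have ih' := ih (by omega)
    simp only [ch]
    rw [Nat.le_div_iff_mul_le (by omega)]
    set a := ch n d h i
    set a' := ch n' d' h i
    set x := a * (d - h - i) / (d - i) with hx
    have hx1 : x * (d - i) ≤ a * (d - h - i) := Nat.div_mul_le_self _ _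
    rcases Nat.lt_or_ge (h + i) d with hlt | hge
    · have hxa : x ≤ a := by
        have : x * (d - i) ≤ a * (d - i) := hx1.trans (Nat.mul_le_mul_left _ (by omega))
        exact Nat.le_of_mul_le_mul_right this (by omega)
      have e1 : d' - i = (d - i) + (d' - d) := by omega
      have e2 : d' - h - i = (d - h - i) + (d' - d) := by omega
      rw [e1, e2, mul_add, mul_add]
      have h1 : x * (d' - d) ≤ a' * (d' - d) := Nat.mul_le_mul_right _ (hxa.trans ih')
      have h2 : a * (d - h - i) ≤ a' * (d - h - i) := Nat.mul_le_mul_right _ ih'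
      omega
    · have : x = 0 := by
        rw [hx]
        have : d - h - i = 0 := by omega
        rw [this]; simp
      rw [this]; simp

open Classical in
lemma LB_chain {k j h h' i N H : ℕ} (hT : IsTournament E) (hS : HasS E k)
    (hk : k ≤ Fintype.card V) (hN : Fintype.card V ≤ N)
    (hL : LB E k j h) (hL' : LB E k (k - i) h') (hi : i ≤ k)
    (hH : ch N (H - 1) h i < h') : LB E k (j + 1) H := by
  intro A hA
  by_contra hlt
  push Not at hlt
  have h1 : k + 1 ≤ (dom E A).card := LB_one hT hS hk A (by omega)
  have hAa : ∀ a : V, h ≤ (dom E (insert a A)).card := by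
    intro a
    exact hL _ (by have := Finset.card_insert_le a A; omega)
  obtain ⟨S, hSA, hSc, hSb⟩ := chain hT hAa i (by omega)
  have h2 : h' ≤ (dom E S).card := hL' S (by omega)
  have h3 := ch_mono (h := h) hN (show (dom E A).card ≤ H - 1 by omega) i (by omega)
  omega

/-- Certificate checker.  `Hs` lists lower bounds for levels `j, j-1, …, 0`. -/
def check (N k : ℕ) : List (ℕ × ℕ) → List ℕ → Bool
  | [], Hs => Nat.ble Hs.length (k + 1) && Nat.ble (N + 1) (2 ^ (k + 1 - Hs.length) * (Hs.headD 0 + 1) - 1)
      && Nat.ble 1 Hs.length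
  | (H, i) :: c, Hs =>
      (Nat.ble H (2 * Hs.headD 0 + 1) ||
        (Nat.ble i k && Nat.ble (k - i + 1) Hs.length &&
          Nat.ble (ch N (H - 1) (Hs.headD 0) i + 1) (Hs.getD (Hs.length - 1 - (k - i)) 0))) &&
      check N k c (H :: Hs)

lemma check_sound {k N : ℕ} (hT : IsTournament E) (hS : HasS E k)
    (hk : k ≤ Fintype.card V) (hN : Fintype.card V ≤ N) :
    ∀ (c : List (ℕ × ℕ)) (Hs : List ℕ), 1 ≤ Hs.length →
      (∀ idx < Hs.length, LB E k (Hs.length - 1 - idx) (Hs.getD idx 0)) →
      check N k c Hs = true → False := by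
  intro c
  induction c with
  | nil =>
    intro Hs hlen hLB hc
    simp only [check, Bool.and_eq_true, Nat.ble_eq] at hc
    obtain ⟨⟨h1, h2⟩, h3⟩ := hc
    have h0 := hLB 0 (by omega)
    have e0 : Hs.getD 0 0 = Hs.headD 0 := by
      cases Hs <;> simp
    rw [e0] at h0
    have h4 := LB_halve hT hS hk h0 (k + 1 - Hs.length)
    have e1 : Hs.length - 1 - 0 + (k + 1 - Hs.length) = k := by omega
    rw [e1] at h4
    have h5 := h4 ∅ (by simp)
    have h6 : (dom E (∅ : Finset V)).card ≤ Fintype.card V := Finset.card_le_univ _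
    omega
  | cons a c ih =>
    obtain ⟨H, i⟩ := a
    intro Hs hlen hLB hc
    simp only [check, Bool.and_eq_true, Bool.or_eq_true, Nat.ble_eq] at hc
    obtain ⟨h1, h2⟩ := hc
    have h0 := hLB 0 (by omega)
    have e0 : Hs.getD 0 0 = Hs.headD 0 := by
      cases Hs <;> simp
    rw [e0] at h0
    have hnew : LB E k (Hs.length - 1 - 0 + 1) H := by
      rcases h1 with h1 | ⟨⟨h1, h3⟩, h4⟩
      · have := LB_double hT hS hk h0
        intro A hA
        exact h1.trans (this A hA)
      · have h5 := hLB (Hs.length - 1 - (k - i)) (by omega)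
        have e2 : Hs.length - 1 - (Hs.length - 1 - (k - i)) = k - i := by omega
        rw [e2] at h5
        exact LB_chain hT hS hk hN h0 h5 h1 (by omega)
    refine ih (H :: Hs) (by simp) ?_ h2
    intro idx hidx
    rcases idx with _ | idx
    · simp only [List.length_cons, List.getD_cons_zero]
      have e3 : Hs.length + 1 - 1 - 0 = Hs.length - 1 - 0 + 1 := by omega
      rw [e3]; exact hnew
    · simp only [List.length_cons, List.getD_cons_succ]
      have e3 : Hs.length + 1 - 1 - (idx + 1) = Hs.length - 1 - idx := by omega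
      rw [e3]
      exact hLB idx (by simpa using hidx)

/-- If the certificate `c` checks for `(N, k)`, no tournament with `S_k` has at most `N`
vertices. -/
lemma bound_of_check {k N : ℕ} (hT : IsTournament E) (hS : HasS E k)
    (hk : k ≤ Fintype.card V) (c : List (ℕ × ℕ)) (hc : check N k c [k + 1, 1] = true) :
    N + 1 ≤ Fintype.card V := by
  by_contra hcon
  have hN : Fintype.card V ≤ N := by omega
  refine check_sound hT hS hk hN c [k + 1, 1] (by simp) ?_ hc
  intro idx hidx
  simp only [List.length_cons, List.length_nil] at hidx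
  rcases idx with _ | _ | idx
  · simpa using LB_one hT hS hk
  · simpa using LB_zero hS hk
  · omega

end

end Pool.Agent.H77.Schutte
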