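import Pool.Agent.H77.SchutteReal

namespace Pool.Agent.H77.Schutte

open Finset

lemma sum_sq_centered (t : ℕ) :
    ∑ l ∈ range t, (((t : ℝ) - 1) / 2 - l) ^ 2 = (t : ℝ) * ((t : ℝ) ^ 2 - 1) / 12 := by
  have h1 : ∀ n : ℕ, ∑ l ∈ range n, (l : ℝ) = (n : ℝ) * (n - 1) / 2 := by
    intro n
    induction n with
    | zero => simp
    | succ n ih => rw [sum_range_succ, ih]; push_cast; ring
  have h2 : ∀ n : ℕ, ∑ l ∈ range n, (l : ℝ) ^ 2 = (n : ℝ) * (n - 1) * (2 * n - 1) / 6 := by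
    intro n
    induction n with
    | zero => simp
    | succ n ih => rw [sum_range_succ, ih]; push_cast; ring
  have h3 : ∀ l : ℕ, (((t : ℝ) - 1) / 2 - l) ^ 2
      = (((t : ℝ) - 1) / 2) ^ 2 - ((t : ℝ) - 1) * l + (l : ℝ) ^ 2 := by
    intro l; ring
  simp only [h3]
  rw [sum_add_distrib, sum_sub_distrib, ← mul_sum, h1, h2, sum_const, card_range, nsmul_eq_mul]
  ring

/-- Second-order refinement of `prod_le_pow`. -/
lemma prod_le_pow_exp {t : ℕ} {d h : ℝ} (h0 : 0 ≤ h) (ht : 1 ≤ t) (hd : h < d - (t - 1)) :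
    ∏ l ∈ range t, (1 - h / (d - l)) ≤ (1 - h / (d - (t - 1) / 2)) ^ t *
      Real.exp (-(1 / (d - (t - 1) / 2 - h) ^ 2 - 1 / (d - (t - 1) / 2) ^ 2)
        * ((t : ℝ) * ((t : ℝ) ^ 2 - 1) / 24)) := by
  have ht' : (1 : ℝ) ≤ t := by exact_mod_cast ht
  set m : ℝ := d - (t - 1) / 2 with hm
  have hm0 : 0 < m := by linarith
  have hmh : h < m := by linarith
  set c : ℝ := 1 / (m - h) ^ 2 - 1 / m ^ 2 with hc
  have hmh0 : 0 < m - h := by linarith
  have hfl : ∀ l ∈ range t, (0 : ℝ) < d - l ∧ h < d - l := by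
    intro l hl
    have : (l : ℝ) + 1 ≤ t := by exact_mod_cast (Finset.mem_range.1 hl)
    constructor <;> linarith
  have hnn : ∀ l ∈ range t, (0 : ℝ) ≤ 1 - h / (d - l) := by
    intro l hl
    obtain ⟨h1, h2⟩ := hfl l hl
    rw [sub_nonneg, div_le_one h1]; exact h2.le
  have hQ0 : 0 ≤ 1 - h / m := by
    rw [sub_nonneg, div_le_one hm0]; exact hmh.le
  have hsq : (∏ l ∈ range t, (1 - h / (d - l))) ^ 2 ≤ ((1 - h / m) ^ t *
      Real.exp (-c * ((t : ℝ) * ((t : ℝ) ^ 2 - 1) / 24))) ^ 2 := by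
    have e1 : (∏ l ∈ range t, (1 - h / (d - l))) ^ 2
        = ∏ l ∈ range t, ((1 - h / (d - l)) * (1 - h / (d - ((t - 1 - l : ℕ) : ℝ)))) := by
      rw [Finset.prod_mul_distrib, sq]
      congr 1
      exact (Finset.prod_range_reflect (fun l : ℕ => (1 - h / (d - (l : ℝ)))) t).symm
    have e2 : ((1 - h / m) ^ t * Real.exp (-c * ((t : ℝ) * ((t : ℝ) ^ 2 - 1) / 24))) ^ 2
        = ∏ l ∈ range t, ((1 - h / m) ^ 2 * Real.exp (-c * (((t : ℝ) - 1) / 2 - l) ^ 2)) := by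
      rw [Finset.prod_mul_distrib, Finset.prod_const, Finset.card_range, ← Real.exp_sum, ← mul_sum,
        sum_sq_centered, mul_pow, ← pow_mul, ← pow_mul, mul_comm t 2, ← Real.exp_nat_mul]
      congr 2
      push_cast; ring
    rw [e1, e2]
    apply Finset.prod_le_prod
    · intro l hl
      have hl' : t - 1 - l ∈ range t := by
        rw [Finset.mem_range] at hl ⊢; omega
      exact mul_nonneg (hnn l hl) (hnn _ hl')
    · intro l hl
      have hl' : t - 1 - l ∈ range t := by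
        rw [Finset.mem_range] at hl ⊢; omega
      obtain ⟨x0, xh⟩ := hfl l hl
      obtain ⟨y0, yh⟩ := hfl _ hl'
      set e : ℝ := ((t : ℝ) - 1) / 2 - l with he
      have hx : d - (l : ℝ) = m + e := by rw [hm, he]; ring
      have hy : d - ((t - 1 - l : ℕ) : ℝ) = m - e := by
        have hlt := Finset.mem_range.1 hl
        have : ((t - 1 - l : ℕ) : ℝ) = (t : ℝ) - 1 - l := by
          rw [Nat.cast_sub (by omega), Nat.cast_sub (by omega)]; simp
        rw [this, hm, he]; ring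
      rw [hx] at x0 xh ⊢
      rw [hy] at y0 yh ⊢
      have hxy : 0 < m ^ 2 - e ^ 2 := by nlinarith [mul_pos x0 y0]
      have hxyh : 0 < (m - h) ^ 2 - e ^ 2 := by
        nlinarith [mul_pos (sub_pos.2 xh) (sub_pos.2 yh)]
      have e3 : (1 - h / (m + e)) * (1 - h / (m - e)) = ((m - h) ^ 2 - e ^ 2) / (m ^ 2 - e ^ 2) := by
        have e3a : 1 - h / (m + e) = (m + e - h) / (m + e) := by
          field_simp
        have e3b : 1 - h / (m - e) = (m - e - h) / (m - e) := by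
          field_simp
        rw [e3a, e3b, div_mul_div_comm]
        congr 1 <;> ring
      have e4 : (1 - h / m) ^ 2 = (m - h) ^ 2 / m ^ 2 := by
        have : 1 - h / m = (m - h) / m := by field_simp
        rw [this, div_pow]
      rw [e3, e4]
      have hexp : 1 - c * e ^ 2 ≤ Real.exp (-c * e ^ 2) := by
        have := Real.add_one_le_exp (-c * e ^ 2)
        linarith
      have hfac : ((m - h) ^ 2 - e ^ 2) / (m ^ 2 - e ^ 2) ≤ (m - h) ^ 2 / m ^ 2 * (1 - c * e ^ 2) := by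
        set a : ℝ := e ^ 2 / (m - h) ^ 2 with ha
        set b : ℝ := e ^ 2 / m ^ 2 with hb
        have hmsq : 0 < m ^ 2 := by positivity
        have hmhsq : 0 < (m - h) ^ 2 := by positivity
        have hce : c * e ^ 2 = a - b := by rw [hc, ha, hb]; ring
        have hb0 : 0 ≤ b := by positivity
        have hba : b ≤ a := by
          rw [ha, hb]
          apply div_le_div_of_nonneg_left (sq_nonneg _) hmhsq
          apply pow_le_pow_left₀ hmh0.le; linarith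
        have hb1 : b < 1 := by
          rw [hb, div_lt_one hmsq]; linarith
        have e5 : (m - h) ^ 2 - e ^ 2 = (m - h) ^ 2 * (1 - a) := by
          rw [ha]; field_simp
        have e6 : m ^ 2 - e ^ 2 = m ^ 2 * (1 - b) := by
          rw [hb]; field_simp
        rw [e5, e6, hce, mul_div_mul_comm]
        apply mul_le_mul_of_nonneg_left _ (by positivity)
        rw [div_le_iff₀ (by linarith)]
        nlinarith [mul_nonneg hb0 (sub_nonneg.2 hba)]
      exact hfac.trans (mul_le_mul_of_nonneg_left hexp (by positivity))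
  have hP0 : 0 ≤ ∏ l ∈ range t, (1 - h / (d - l)) := Finset.prod_nonneg hnn
  exact (pow_le_pow_iff_left₀ hP0 (mul_nonneg (pow_nonneg hQ0 _) (Real.exp_pos _).le)
    (by norm_num)).1 hsq

section
variable {V : Type} [Fintype V] {E : V → V → Prop}

open Classical in
/-- Level two for large `k`: sets of at most `k - 2` vertices have at least `2.55 k` common
dominators when `n < (3/4) k 2^k`. -/
lemma level_two {k : ℕ} (hT : IsTournament E) (hS : HasS E k) (hk : k ≤ Fintype.card V)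
    (hk2 : 230 ≤ k) (hn : (Fintype.card V : ℝ) < 3 / 4 * k * 2 ^ k) :
    LBr E k 2 (51 / 20 * (k : ℝ)) := by
  intro A hA
  by_contra hcon0
  push Not at hcon0
  have hL := LB_one hT hS hk
  have hAa : ∀ a : V, k + 1 ≤ (dom E (insert a A)).card := by
    intro a
    exact hL _ (by have := Finset.card_insert_le a A; omega)
  set d := (dom E A).card with hd
  have hkr : (230 : ℝ) ≤ k := by exact_mod_cast hk2
  have hd2 : 2 * (k + 1) + 1 ≤ d := LB_double hT hS hk hL A hA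
  obtain ⟨S, hSA, hSc, hSb⟩ := real_chain hT (by omega : 1 ≤ k + 1) hAa (k - 1) (by omega)
  have hlow : k + 1 ≤ (dom E S).card := LB_one hT hS hk S (by omega)
  have hlowr : (k : ℝ) + 1 ≤ ((dom E S).card : ℝ) := by exact_mod_cast hlow
  have hd2r : 2 * ((k : ℝ) + 1) + 1 ≤ d := by exact_mod_cast hd2
  have hcast : ((k - 1 : ℕ) : ℝ) = (k : ℝ) - 1 := by
    rw [Nat.cast_sub (by omega)]; simp
  set N : ℝ := (Fintype.card V : ℝ) with hN
  have hN0 : 0 ≤ N := by positivity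
  -- replace `d` by `2.55 k`
  have hcmp : ∏ l ∈ range (k - 1), (1 - ((k + 1 : ℕ) : ℝ) / ((d : ℝ) - l))
      ≤ ∏ l ∈ range (k - 1), (1 - ((k : ℝ) + 1) / (51 / 20 * (k : ℝ) - l)) := by
    apply Finset.prod_le_prod
    · intro l hl
      have hl' : (l : ℝ) + 1 ≤ (k : ℝ) - 1 := by
        rw [← hcast]; exact_mod_cast (Finset.mem_range.1 hl)
      push_cast
      rw [sub_nonneg, div_le_one (by linarith)]; linarith
    · intro l hl
      have hl' : (l : ℝ) + 1 ≤ (k : ℝ) - 1 := by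
        rw [← hcast]; exact_mod_cast (Finset.mem_range.1 hl)
      push_cast
      apply sub_le_sub_left
      apply div_le_div_of_nonneg_left (by linarith) (by linarith) (by linarith)
  have hprod := prod_le_pow_exp (t := k - 1) (d := 51 / 20 * (k : ℝ)) (h := (k : ℝ) + 1)
    (by positivity) (by omega) (by rw [hcast]; linarith)
  rw [hcast] at hprod
  have em : 51 / 20 * (k : ℝ) - ((k : ℝ) - 1 - 1) / 2 = 41 / 20 * k + 1 := by ring
  rw [em] at hprod
  have em2 : 41 / 20 * (k : ℝ) + 1 - ((k : ℝ) + 1) = 21 / 20 * k := by ring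
  rw [em2] at hprod
  -- first factor
  have hk0 : (0 : ℝ) < k := by linarith
  have f1 : 1 - ((k : ℝ) + 1) / (41 / 20 * k + 1) ≤ 21 / 41 := by
    have : 1 - ((k : ℝ) + 1) / (41 / 20 * k + 1) = (21 / 20 * k) / (41 / 20 * k + 1) := by
      field_simp; ring
    rw [this, div_le_div_iff₀ (by positivity) (by norm_num)]
    nlinarith
  have f0 : 0 ≤ 1 - ((k : ℝ) + 1) / (41 / 20 * k + 1) := by
    rw [sub_nonneg, div_le_one (by positivity)]; linarith
  have f2 : (1 - ((k : ℝ) + 1) / (41 / 20 * k + 1)) ^ (k - 1) ≤ (21 / 41) ^ (k - 1) :=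
    pow_le_pow_left₀ f0 f1 _
  -- `21/41 ≤ (1/2) * exp (1/41)`
  have f3 : (21 / 41 : ℝ) ^ (k - 1) ≤ (1 / 2) ^ (k - 1) * Real.exp (((k : ℝ) - 1) / 41) := by
    have g1 : (21 / 41 : ℝ) ≤ 1 / 2 * Real.exp (1 / 41) := by
      have := Real.add_one_le_exp (1 / 41 : ℝ)
      linarith
    calc (21 / 41 : ℝ) ^ (k - 1) ≤ (1 / 2 * Real.exp (1 / 41)) ^ (k - 1) :=
          pow_le_pow_left₀ (by norm_num) g1 _
      _ = (1 / 2) ^ (k - 1) * Real.exp (((k : ℝ) - 1) / 41) := by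
          rw [mul_pow, ← Real.exp_nat_mul, hcast]
          congr 2; ring
  -- second factor
  have f4 : -(1 / (21 / 20 * (k : ℝ)) ^ 2 - 1 / (41 / 20 * k + 1) ^ 2)
        * (((k : ℝ) - 1) * (((k : ℝ) - 1) ^ 2 - 1) / 24) ≤ -(((k : ℝ) - 1) / 41) - 41 / 100 := by
    have g1 : 1 / (41 / 20 * (k : ℝ) + 1) ^ 2 ≤ 1 / (41 / 20 * (k : ℝ)) ^ 2 := by
      apply one_div_le_one_div_of_le (by positivity)
      apply pow_le_pow_left₀ (by positivity); linarith
    have g2 : (66 / 100 : ℝ) / (k : ℝ) ^ 2 + 9 / 1000 / (k : ℝ) ^ 2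
        ≤ 1 / (21 / 20 * (k : ℝ)) ^ 2 - 1 / (41 / 20 * (k : ℝ)) ^ 2 := by
      have : 1 / (21 / 20 * (k : ℝ)) ^ 2 - 1 / (41 / 20 * (k : ℝ)) ^ 2
          = (400 / 441 - 400 / 1681) / (k : ℝ) ^ 2 := by
        field_simp; norm_num
      rw [this, ← add_div]
      apply div_le_div_of_nonneg_right _ (by positivity)
      norm_num
    have g3 : (669 / 1000 : ℝ) / (k : ℝ) ^ 2 ≤
        1 / (21 / 20 * (k : ℝ)) ^ 2 - 1 / (41 / 20 * k + 1) ^ 2 := by
      have : (669 / 1000 : ℝ) / (k : ℝ) ^ 2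
          = (66 / 100 : ℝ) / (k : ℝ) ^ 2 + 9 / 1000 / (k : ℝ) ^ 2 := by
        rw [← add_div]; norm_num
      linarith
    have g4 : 0 ≤ ((k : ℝ) - 1) * (((k : ℝ) - 1) ^ 2 - 1) / 24 := by
      have : 0 ≤ ((k : ℝ) - 1) ^ 2 - 1 := by nlinarith
      have : 0 ≤ (k : ℝ) - 1 := by linarith
      positivity
    have g5 := mul_le_mul_of_nonneg_right g3 g4
    have g6 : (669 / 1000 : ℝ) / (k : ℝ) ^ 2 * (((k : ℝ) - 1) * (((k : ℝ) - 1) ^ 2 - 1) / 24)
        ≥ ((k : ℝ) - 1) / 41 + 41 / 100 := by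
      rw [ge_iff_le, div_mul_eq_mul_div, le_div_iff₀ (by positivity)]
      nlinarith [mul_nonneg hk0.le (sub_nonneg.2 hkr), mul_nonneg (sq_nonneg (k : ℝ)) (sub_nonneg.2 hkr)]
    linarith
  have f5 : (3 / 2 : ℝ) * Real.exp (-(41 / 100)) ≤ 1 := by
    have g1 : (3 / 2 : ℝ) ≤ Real.exp (41 / 100) := by
      have g2 := Real.quadratic_le_exp_of_nonneg (x := 41 / 100) (by norm_num)
      have g3 : Real.exp (41 / 100) = Real.exp (41 / 200) * Real.exp (41 / 200) := by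
        rw [← Real.exp_add]; norm_num
      have g4 := Real.quadratic_le_exp_of_nonneg (x := 41 / 200) (by norm_num)
      rw [g3]
      nlinarith
    rw [Real.exp_neg, ← div_eq_mul_inv, div_le_one (Real.exp_pos _)]
    exact g1
  have hfin : N * ∏ l ∈ range (k - 1), (1 - ((k + 1 : ℕ) : ℝ) / ((d : ℝ) - l)) ≤ k := by
    have s1 : ∏ l ∈ range (k - 1), (1 - ((k + 1 : ℕ) : ℝ) / ((d : ℝ) - l))
        ≤ ((1 / 2) ^ (k - 1) * Real.exp (((k : ℝ) - 1) / 41))
          * Real.exp (-(((k : ℝ) - 1) / 41) - 41 / 100) := by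
      refine hcmp.trans (hprod.trans ?_)
      apply mul_le_mul (f2.trans f3) (Real.exp_le_exp.2 f4) (Real.exp_pos _).le (by positivity)
    have s2 : ((1 / 2) ^ (k - 1) * Real.exp (((k : ℝ) - 1) / 41))
          * Real.exp (-(((k : ℝ) - 1) / 41) - 41 / 100)
        = (1 / 2) ^ (k - 1) * Real.exp (-(41 / 100)) := by
      rw [mul_assoc, ← Real.exp_add]; congr 2; ring
    rw [s2] at s1
    have h9 : (2 : ℝ) ^ k = 2 * 2 ^ (k - 1) := by
      rw [← pow_succ']; congr 1; omega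
    calc N * ∏ l ∈ range (k - 1), (1 - ((k + 1 : ℕ) : ℝ) / ((d : ℝ) - l))
        ≤ N * ((1 / 2) ^ (k - 1) * Real.exp (-(41 / 100))) := mul_le_mul_of_nonneg_left s1 hN0
      _ ≤ (3 / 4 * k * 2 ^ k) * ((1 / 2) ^ (k - 1) * Real.exp (-(41 / 100))) :=
          mul_le_mul_of_nonneg_right hn.le (by positivity)
      _ = k * (3 / 2 * Real.exp (-(41 / 100))) := by
          rw [h9, one_div_pow]; field_simp; ring
      _ ≤ k * 1 := mul_le_mul_of_nonneg_left f5 hk0.le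
      _ = k := mul_one _
  linarith

lemma LBr_iter2 {k : ℕ} (hT : IsTournament E) (hS : HasS E k) (hk : k ≤ Fintype.card V)
    (hk2 : 230 ≤ k) (hn : (Fintype.card V : ℝ) < 3 / 4 * k * 2 ^ k) (j : ℕ) :
    LBr E k (j + 2) ((2 * (1 - 1 / (2 * ((k : ℝ) - 1)))) ^ j * (61 / 20 * k - 1 / 2)
      - ((k : ℝ) - 1) / 2) := by
  have hkr : (230 : ℝ) ≤ k := by exact_mod_cast hk2
  have hk1 : 0 < (k : ℝ) - 1 := by linarith
  induction j with
  | zero =>
    intro A hA
    have := level_two hT hS hk hk2 hn A hA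
    rw [pow_zero]
    linarith
  | succ j ih =>
    set x : ℝ := (2 * (1 - 1 / (2 * ((k : ℝ) - 1)))) ^ j * (61 / 20 * k - 1 / 2)
      - ((k : ℝ) - 1) / 2 with hx
    set h : ℕ := max 1 ⌈x⌉₊ with hh
    have hL : LB E k (j + 2) h := by
      intro A hA
      rw [hh, max_le_iff]
      constructor
      · exact Finset.card_pos.2 (dom_nonempty hS hk A (by omega))
      · rw [Nat.ceil_le]; exact ih A hA
    have hxh : x ≤ h := by
      calc x ≤ (⌈x⌉₊ : ℝ) := Nat.le_ceil x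
        _ ≤ h := by exact_mod_cast le_max_right _ _
    have hstep := level_step hT hS hk (by omega) (le_max_left _ _) hL hn
    intro A hA
    have h3 := hstep A hA
    refine le_trans ?_ h3
    have hq : 0 ≤ 2 * (1 - 1 / (2 * ((k : ℝ) - 1))) := by
      have : 1 / (2 * ((k : ℝ) - 1)) ≤ 1 / 2 := by
        rw [div_le_div_iff₀ (by positivity) (by norm_num)]; linarith
      linarith
    have h4 : 2 * (1 - 1 / (2 * ((k : ℝ) - 1))) * x ≤ 2 * (1 - 1 / (2 * ((k : ℝ) - 1))) * h :=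
      mul_le_mul_of_nonneg_left hxh hq
    have h5 : (2 * (1 - 1 / (2 * ((k : ℝ) - 1)))) ^ (j + 1) * (61 / 20 * k - 1 / 2)
        - ((k : ℝ) - 1) / 2 = ((k : ℝ) - 2) / 2 + 2 * (1 - 1 / (2 * ((k : ℝ) - 1))) * x := by
      rw [hx, pow_succ]
      field_simp
      ring
    rw [h5]
    linarith

/-- For `k ≥ 230`: `n ≥ (3/4) k 2^k`. -/
theorem big_k {k : ℕ} (hT : IsTournament E) (hS : HasS E k) (hk : k ≤ Fintype.card V)
    (hk2 : 230 ≤ k) : 3 * k * 2 ^ k ≤ 4 * Fintype.card V := by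
  by_contra hcon
  push Not at hcon
  have hn : (Fintype.card V : ℝ) < 3 / 4 * k * 2 ^ k := by
    have : (4 : ℝ) * (Fintype.card V : ℝ) < 3 * k * 2 ^ k := by exact_mod_cast hcon
    linarith
  have hkr : (230 : ℝ) ≤ k := by exact_mod_cast hk2
  have hk1 : 0 < (k : ℝ) - 1 := by linarith
  have h1 := LBr_iter2 hT hS hk hk2 hn 6
  set x : ℝ := (2 * (1 - 1 / (2 * ((k : ℝ) - 1)))) ^ 6 * (61 / 20 * k - 1 / 2)
      - ((k : ℝ) - 1) / 2 with hx
  have hL : LB E k (6 + 2) ⌈x⌉₊ := by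
    intro A hA
    rw [Nat.ceil_le]; exact h1 A hA
  have h2 := LB_halve hT hS hk hL (k - 8) ∅ (by simp; omega)
  have h3 : (dom E (∅ : Finset V)).card ≤ Fintype.card V := Finset.card_le_univ _
  have h4 : 2 ^ (k - 8) * (⌈x⌉₊ + 1) ≤ Fintype.card V + 1 := by omega
  have h5 : (2 : ℝ) ^ (k - 8) * ((⌈x⌉₊ : ℝ) + 1) ≤ (Fintype.card V : ℝ) + 1 := by
    exact_mod_cast h4
  have h6 : x ≤ (⌈x⌉₊ : ℝ) := Nat.le_ceil x
  have hp : (0 : ℝ) < 2 ^ (k - 8) := by positivity
  have h7 : (2 : ℝ) ^ (k - 8) * (x + 1) ≤ (Fintype.card V : ℝ) + 1 :=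
    (mul_le_mul_of_nonneg_left (by linarith) hp.le).trans h5
  have e2k : (2 : ℝ) ^ k = 2 ^ (k - 8) * 2 ^ 8 := by
    rw [← pow_add]; congr 1; omega
  set δ : ℝ := 1 / (2 * ((k : ℝ) - 1)) with hδ
  have hδ0 : 0 < δ := by positivity
  have hδ1 : δ ≤ 1 / 2 := by
    rw [hδ, div_le_div_iff₀ (by positivity) (by norm_num)]; linarith
  have hb : 1 + ((6 : ℕ) : ℝ) * (-δ) ≤ (1 + -δ) ^ 6 := one_add_mul_le_pow (by linarith) 6
  have h8 : (64 : ℝ) * (1 - 6 * δ) ≤ (2 * (1 - δ)) ^ 6 := by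
    rw [mul_pow]
    push_cast at hb
    have : (1 + -δ) = 1 - δ := by ring
    rw [this] at hb
    nlinarith
  have h9 : (64 : ℝ) * (1 - 6 * δ) * (61 / 20 * k - 1 / 2) ≤ (2 * (1 - δ)) ^ 6 * (61 / 20 * k - 1 / 2) :=
    mul_le_mul_of_nonneg_right h8 (by linarith)
  have h10 : δ * (61 / 20 * (k : ℝ) - 1 / 2) = 61 / 40 + 51 / 20 * δ := by
    rw [hδ]; field_simp; ring
  have hδ2 : δ ≤ 1 / 458 := by
    rw [hδ, div_le_div_iff₀ (by positivity) (by norm_num)]; linarith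
  have h11 : 192 * (k : ℝ) + 1 ≤ x + 1 := by
    have h12 : (64 : ℝ) * (1 - 6 * δ) * (61 / 20 * k - 1 / 2)
        = 64 * (61 / 20 * k - 1 / 2) - 384 * (61 / 40 + 51 / 20 * δ) := by
      rw [← h10]; ring
    rw [h12] at h9
    rw [hx]
    linarith
  have h13 : (2 : ℝ) ^ (k - 8) * (192 * (k : ℝ) + 1) ≤ (Fintype.card V : ℝ) + 1 :=
    (mul_le_mul_of_nonneg_left h11 hp.le).trans h7
  have h14 : (1 : ℝ) ≤ 2 ^ (k - 8) := one_le_pow₀ (by norm_num)
  have h15 : 3 / 4 * (k : ℝ) * 2 ^ k = 2 ^ (k - 8) * (192 * k) := by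
    rw [e2k]; ring
  linarith

end

end Pool.Agent.H77.Schutte
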