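import Pool.Agent.H77.Schutte

namespace Pool.Agent.H77.Schutte

open Finset

section
variable {V : Type} [Fintype V] {E : V → V → Prop}

open Classical in
lemma real_chain (hT : IsTournament E) {A : Finset V} {h : ℕ} (h1 : 1 ≤ h)
    (hA : ∀ a : V, h ≤ (dom E (insert a A)).card) (i : ℕ) (hi : h + i ≤ (dom E A).card) :
    ∃ S ⊆ dom E A, S.card = i ∧
      ((dom E S).card : ℝ) ≤ (Fintype.card V : ℝ) *
        ∏ l ∈ range i, (1 - (h : ℝ) / ((dom E A).card - l)) := by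
  induction i with
  | zero =>
    refine ⟨∅, Finset.empty_subset _, rfl, ?_⟩
    simp only [range_zero, prod_empty, mul_one]
    exact_mod_cast Finset.card_le_univ _
  | succ i ih =>
    obtain ⟨S, hSA, hSc, hSb⟩ := ih (by omega)
    obtain ⟨v, hv, hvb⟩ := step hT hA hSA (by omega)
    have hv' := Finset.mem_sdiff.1 hv
    refine ⟨insert v S, ?_, ?_, ?_⟩
    · intro w hw
      rcases Finset.mem_insert.1 hw with rfl | hw
      · exact hv'.1
      · exact hSA hw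
    · rw [Finset.card_insert_of_notMem hv'.2, hSc]
    · rw [hSc] at hvb
      set d := (dom E A).card with hd
      have hdi : (0 : ℝ) < (d : ℝ) - i := by
        have : (i : ℝ) + 1 ≤ d := by exact_mod_cast (by omega : i + 1 ≤ d)
        linarith
      have hvr : ((dom E (insert v S)).card : ℝ) * ((d : ℝ) - i)
          ≤ ((dom E S).card : ℝ) * ((d : ℝ) - h - i) := by
        have e1 : ((d - i : ℕ) : ℝ) = (d : ℝ) - i := by
          rw [Nat.cast_sub (by omega)]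
        have e2 : ((d - h - i : ℕ) : ℝ) = (d : ℝ) - h - i := by
          rw [Nat.cast_sub (by omega), Nat.cast_sub (by omega)]
        rw [← e1, ← e2]
        exact_mod_cast hvb
      have hfac : ((dom E (insert v S)).card : ℝ) ≤
          ((dom E S).card : ℝ) * (1 - (h : ℝ) / (d - i)) := by
        have e3 : ((dom E S).card : ℝ) * (1 - (h : ℝ) / (d - i))
            = ((dom E S).card : ℝ) * ((d : ℝ) - h - i) / ((d : ℝ) - i) := by
          field_simp
          ring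
        rw [e3, le_div_iff₀ hdi]
        exact hvr
      have hnn : (0 : ℝ) ≤ 1 - (h : ℝ) / (d - i) := by
        rw [sub_nonneg, div_le_one hdi]
        have : (h : ℝ) + i ≤ d := by exact_mod_cast (by omega : h + i ≤ d)
        linarith
      rw [Finset.prod_range_succ, ← mul_assoc]
      exact hfac.trans (mul_le_mul_of_nonneg_right hSb hnn)

/-- Arithmetic–geometric bound on the product. -/
lemma prod_le_pow {t : ℕ} {d h : ℝ} (h0 : 0 ≤ h) (ht : 1 ≤ t) (hd : h ≤ d - (t - 1))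
    (hpos : 0 < d - (t - 1)) :
    ∏ l ∈ range t, (1 - h / (d - l)) ≤ (1 - h / (d - (t - 1) / 2)) ^ t := by
  have ht' : (1 : ℝ) ≤ t := by exact_mod_cast ht
  set m : ℝ := d - (t - 1) / 2 with hm
  have hm0 : 0 < m := by linarith
  have hmh : h ≤ m := by linarith
  have hfl : ∀ l ∈ range t, (0 : ℝ) < d - l ∧ h ≤ d - l := by
    intro l hl
    have : (l : ℝ) + 1 ≤ t := by exact_mod_cast (Finset.mem_range.1 hl)
    constructor <;> linarith
  have hnn : ∀ l ∈ range t, (0 : ℝ) ≤ 1 - h / (d - l) := by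
    intro l hl
    obtain ⟨h1, h2⟩ := hfl l hl
    rw [sub_nonneg, div_le_one h1]; exact h2
  have hQ0 : 0 ≤ 1 - h / m := by
    rw [sub_nonneg, div_le_one hm0]; exact hmh
  have hsq : (∏ l ∈ range t, (1 - h / (d - l))) ^ 2 ≤ ((1 - h / m) ^ t) ^ 2 := by
    have e1 : (∏ l ∈ range t, (1 - h / (d - l))) ^ 2
        = ∏ l ∈ range t, ((1 - h / (d - l)) * (1 - h / (d - ((t - 1 - l : ℕ) : ℝ)))) := by
      rw [Finset.prod_mul_distrib, sq]
      congr 1
      exact (Finset.prod_range_reflect (fun l : ℕ => (1 - h / (d - (l : ℝ)))) t).symm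
    have e2 : ((1 - h / m) ^ t) ^ 2 = ∏ _l ∈ range t, ((1 - h / m) ^ 2) := by
      rw [Finset.prod_const, Finset.card_range, ← pow_mul, ← pow_mul, mul_comm]
    rw [e1, e2]
    apply Finset.prod_le_prod
    · intro l hl
      have hl' : t - 1 - l ∈ range t := by
        rw [Finset.mem_range] at hl ⊢; omega
      exact mul_nonneg (hnn l hl) (hnn _ hl')
    · intro l hl
      have hl' : t - 1 - l ∈ range t := by
        rw [Finset.mem_range] at hl ⊢; omega
      obtain ⟨x0, xh⟩ := hfl l hl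
      obtain ⟨y0, yh⟩ := hfl _ hl'
      set x : ℝ := d - l with hx
      set y : ℝ := d - ((t - 1 - l : ℕ) : ℝ) with hy
      have hxy : x + y = 2 * m := by
        have hlt := Finset.mem_range.1 hl
        have : ((t - 1 - l : ℕ) : ℝ) = (t : ℝ) - 1 - l := by
          rw [Nat.cast_sub (by omega), Nat.cast_sub (by omega)]; simp
        rw [hx, hy, this, hm]; ring
      have e3 : (1 - h / x) * (1 - h / y) = (x - h) * (y - h) / (x * y) := by
        field_simp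
      have e4 : (1 - h / m) ^ 2 = (m - h) ^ 2 / m ^ 2 := by
        field_simp
      rw [e3, e4, div_le_div_iff₀ (by positivity) (by positivity)]
      have hy' : y = 2 * m - x := by linarith
      rw [hy'] at *
      have h5 : 0 ≤ (2 * h * m - h ^ 2) * (m - x) ^ 2 := by
        apply mul_nonneg _ (sq_nonneg _)
        nlinarith
      nlinarith [h5]
  have hP0 : 0 ≤ ∏ l ∈ range t, (1 - h / (d - l)) := Finset.prod_nonneg hnn
  exact (pow_le_pow_iff_left₀ hP0 (pow_nonneg hQ0 _) (by norm_num)).1 hsq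

/-- Real form of the level bounds. -/
def LBr (E : V → V → Prop) (k j : ℕ) (x : ℝ) : Prop :=
  ∀ A : Finset V, A.card + j ≤ k → x ≤ ((dom E A).card : ℝ)

open Classical in
lemma level_step {k j h : ℕ} (hT : IsTournament E) (hS : HasS E k) (hk : k ≤ Fintype.card V)
    (hk2 : 2 ≤ k) (h1 : 1 ≤ h) (hL : LB E k j h)
    (hn : (Fintype.card V : ℝ) < 3 / 4 * k * 2 ^ k) :
    LBr E k (j + 1) (((k : ℝ) - 2) / 2 + 2 * (1 - 1 / (2 * ((k : ℝ) - 1))) * h) := by
  intro A hA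
  have hAa : ∀ a : V, h ≤ (dom E (insert a A)).card := by
    intro a
    exact hL _ (by have := Finset.card_insert_le a A; omega)
  set d := (dom E A).card with hd
  have hkr : (2 : ℝ) ≤ k := by exact_mod_cast hk2
  -- `h ≤ d`
  have hVne : Nonempty V := by
    rw [← Fintype.card_pos_iff]; omega
  obtain ⟨a0⟩ := hVne
  have hhd : h ≤ d := (hAa a0).trans (Finset.card_le_card (dom_anti (Finset.subset_insert _ _)))
  -- `h + (k-1) ≤ d`
  have hbig : h + (k - 1) ≤ d := by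
    by_contra hcon
    obtain ⟨S, hSA, hSc, _⟩ := chain hT hAa (d - h) (by omega)
    obtain ⟨v, hv, hvb⟩ := step hT hAa hSA (by rw [hSc]; omega)
    rw [← hd, hSc] at hvb
    have e1 : d - h - (d - h) = 0 := by omega
    rw [e1, mul_zero] at hvb
    have h2 : (dom E (insert v S)).Nonempty := by
      apply dom_nonempty hS hk
      have := Finset.card_insert_le v S
      omega
    have h3 : 0 < (dom E (insert v S)).card := Finset.card_pos.2 h2
    have h4 : 0 < d - (d - h) := by omega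
    have h5 : 0 < (dom E (insert v S)).card * (d - (d - h)) := Nat.mul_pos h3 h4
    omega
  obtain ⟨S, hSA, hSc, hSb⟩ := real_chain hT h1 hAa (k - 1) hbig
  have hlow : k + 1 ≤ (dom E S).card := LB_one hT hS hk S (by omega)
  have hlowr : (k : ℝ) + 1 ≤ ((dom E S).card : ℝ) := by exact_mod_cast hlow
  have hbigr : (h : ℝ) + (k - 1) ≤ d := by
    have : ((h + (k - 1) : ℕ) : ℝ) ≤ d := by exact_mod_cast hbig
    rw [Nat.cast_add, Nat.cast_sub (by omega)] at this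
    simpa using this
  have hcast : ((k - 1 : ℕ) : ℝ) = (k : ℝ) - 1 := by
    rw [Nat.cast_sub (by omega)]; simp
  have h1r : (1 : ℝ) ≤ h := by exact_mod_cast h1
  have hprod := prod_le_pow (t := k - 1) (d := (d : ℝ)) (h := (h : ℝ)) (by positivity) (by omega)
    (by rw [hcast]; linarith) (by rw [hcast]; linarith)
  rw [hcast] at hprod
  set m : ℝ := (d : ℝ) - ((k : ℝ) - 1 - 1) / 2 with hm
  have hm0 : 0 < m := by linarith
  have hmh : (h : ℝ) ≤ m := by linarith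
  set u : ℝ := 1 - (h : ℝ) / m with hu
  have hu0 : 0 ≤ u := by
    rw [hu, sub_nonneg, div_le_one hm0]; exact hmh
  set N : ℝ := (Fintype.card V : ℝ) with hN
  have hN0 : 0 ≤ N := by positivity
  have hmain : (k : ℝ) + 1 ≤ N * u ^ (k - 1) :=
    hlowr.trans (hSb.trans (mul_le_mul_of_nonneg_left hprod hN0))
  set δ : ℝ := 1 / (2 * ((k : ℝ) - 1)) with hδ
  have hk1 : 0 < (k : ℝ) - 1 := by linarith
  have hδ0 : 0 < δ := by positivity
  have hδ1 : δ ≤ 1 / 2 := by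
    rw [hδ, div_le_div_iff₀ (by positivity) (by norm_num)]; linarith
  -- the key claim
  have hkey : (1 - δ) / 2 ≤ u := by
    by_contra hcon
    push Not at hcon
    have h3 : u ^ (k - 1) ≤ ((1 - δ) / 2) ^ (k - 1) := pow_le_pow_left₀ hu0 hcon.le _
    have hbern : 1 + ((k - 1 : ℕ) : ℝ) * δ ≤ (1 + δ) ^ (k - 1) :=
      one_add_mul_le_pow (by linarith) _
    have e4 : ((k - 1 : ℕ) : ℝ) * δ = 1 / 2 := by
      rw [hcast, hδ]; field_simp
    rw [e4] at hbern
    have h5 : (1 - δ) ^ (k - 1) * (1 + δ) ^ (k - 1) ≤ 1 := by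
      rw [← mul_pow]
      apply pow_le_one₀
      · nlinarith
      · nlinarith
    have h6 : 0 ≤ (1 - δ) ^ (k - 1) := by
      apply pow_nonneg; linarith
    have h7 : (1 - δ) ^ (k - 1) ≤ 2 / 3 := by nlinarith
    have h8 : ((1 - δ) / 2) ^ (k - 1) = (1 - δ) ^ (k - 1) / 2 ^ (k - 1) := div_pow _ _ _
    have h9 : (2 : ℝ) ^ k = 2 * 2 ^ (k - 1) := by
      rw [← pow_succ']; congr 1; omega
    have hp : (0 : ℝ) < 2 ^ (k - 1) := by positivity
    have h10 : N * u ^ (k - 1) ≤ k := by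
      calc N * u ^ (k - 1) ≤ (3 / 4 * k * 2 ^ k) * ((1 - δ) ^ (k - 1) / 2 ^ (k - 1)) := by
            apply mul_le_mul hn.le (h8 ▸ h3) (pow_nonneg hu0 _) (by positivity)
        _ = 3 / 2 * k * (1 - δ) ^ (k - 1) := by
            rw [h9]; field_simp; ring
        _ ≤ 3 / 2 * k * (2 / 3) := by
            apply mul_le_mul_of_nonneg_left h7 (by positivity)
        _ = k := by ring
    linarith
  have h11 : (h : ℝ) / m ≤ (1 + δ) / 2 := by rw [hu] at hkey; linarith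
  rw [div_le_iff₀ hm0] at h11
  have h12 : 2 * (1 - δ) * h ≤ m := by
    have h13 : 2 * (h : ℝ) ≤ (1 + δ) * m := by linarith
    have h14 : 2 * (1 - δ) * h ≤ (1 - δ) * ((1 + δ) * m) := by
      have : (0 : ℝ) ≤ 1 - δ := by linarith
      nlinarith
    have h15 : (1 - δ) * ((1 + δ) * m) ≤ m := by nlinarith [sq_nonneg δ]
    linarith
  rw [hm] at h12
  linarith

lemma LBr_iter {k : ℕ} (hT : IsTournament E) (hS : HasS E k) (hk : k ≤ Fintype.card V)
    (hk2 : 2 ≤ k) (hn : (Fintype.card V : ℝ) < 3 / 4 * k * 2 ^ k) (j : ℕ) :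
    LBr E k (j + 1) ((2 * (1 - 1 / (2 * ((k : ℝ) - 1)))) ^ j * ((3 * k + 1) / 2)
      - ((k : ℝ) - 1) / 2) := by
  have hkr : (2 : ℝ) ≤ k := by exact_mod_cast hk2
  have hk1 : 0 < (k : ℝ) - 1 := by linarith
  induction j with
  | zero =>
    intro A hA
    have := LB_one hT hS hk A hA
    have h2 : (k : ℝ) + 1 ≤ ((dom E A).card : ℝ) := by exact_mod_cast this
    rw [pow_zero]
    linarith
  | succ j ih =>
    set x : ℝ := (2 * (1 - 1 / (2 * ((k : ℝ) - 1)))) ^ j * ((3 * k + 1) / 2)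
      - ((k : ℝ) - 1) / 2 with hx
    set h : ℕ := max 1 ⌈x⌉₊ with hh
    have hL : LB E k (j + 1) h := by
      intro A hA
      rw [hh, max_le_iff]
      constructor
      · exact Finset.card_pos.2 (dom_nonempty hS hk A (by omega))
      · rw [Nat.ceil_le]; exact ih A hA
    have hxh : x ≤ h := by
      calc x ≤ (⌈x⌉₊ : ℝ) := Nat.le_ceil x
        _ ≤ h := by exact_mod_cast le_max_right _ _
    have hstep := level_step hT hS hk hk2 (le_max_left _ _) hL hn
    intro A hA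
    have h3 := hstep A hA
    refine le_trans ?_ h3
    have hq : 0 ≤ 2 * (1 - 1 / (2 * ((k : ℝ) - 1))) := by
      have : 1 / (2 * ((k : ℝ) - 1)) ≤ 1 / 2 := by
        rw [div_le_div_iff₀ (by positivity) (by norm_num)]; linarith
      linarith
    have h4 : 2 * (1 - 1 / (2 * ((k : ℝ) - 1))) * x ≤ 2 * (1 - 1 / (2 * ((k : ℝ) - 1))) * h :=
      mul_le_mul_of_nonneg_left hxh hq
    have h5 : (2 * (1 - 1 / (2 * ((k : ℝ) - 1)))) ^ (j + 1) * ((3 * k + 1) / 2)
        - ((k : ℝ) - 1) / 2 = ((k : ℝ) - 2) / 2 + 2 * (1 - 1 / (2 * ((k : ℝ) - 1))) * x := by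
      rw [hx, pow_succ]
      field_simp
      ring
    rw [h5]
    linarith

/-- The closed-form family of lower bounds. -/
theorem closed_form {k : ℕ} (hT : IsTournament E) (hS : HasS E k) (hk : k ≤ Fintype.card V)
    (hk2 : 2 ≤ k) (j : ℕ) (hj1 : 1 ≤ j) (hjk : j ≤ k) :
    2 ^ k * ((3 * (k : ℝ) + 1) / 4 * (1 - ((j : ℝ) - 1) / (2 * ((k : ℝ) - 1)))
      - ((k : ℝ) - 3) / 2 ^ (j + 1)) - 1 ≤ (Fintype.card V : ℝ) := by
  have hkr : (2 : ℝ) ≤ k := by exact_mod_cast hk2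
  have hk1 : 0 < (k : ℝ) - 1 := by linarith
  have hj1r : (1 : ℝ) ≤ j := by exact_mod_cast hj1
  have hjkr : (j : ℝ) ≤ k := by exact_mod_cast hjk
  obtain ⟨i, rfl⟩ : ∃ i, j = i + 1 := ⟨j - 1, by omega⟩
  -- from level `i+1` to level `k` by halving
  have key : ∀ x : ℝ, LBr E k (i + 1) x → 2 ^ (k - (i + 1)) * (x + 1) - 1 ≤ (Fintype.card V : ℝ) := by
    intro x hx
    set h : ℕ := ⌈x⌉₊ with hh
    have hL : LB E k (i + 1) h := by
      intro A hA
      rw [hh, Nat.ceil_le]; exact hx A hA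
    have h2 := LB_halve hT hS hk hL (k - (i + 1)) ∅ (by simp; omega)
    have h3 : (dom E (∅ : Finset V)).card ≤ Fintype.card V := Finset.card_le_univ _
    have h4 : 2 ^ (k - (i + 1)) * (h + 1) ≤ Fintype.card V + 1 := by omega
    have h5 : (2 : ℝ) ^ (k - (i + 1)) * ((h : ℝ) + 1) ≤ (Fintype.card V : ℝ) + 1 := by
      exact_mod_cast h4
    have h6 : x ≤ h := Nat.le_ceil x
    have h7 : (2 : ℝ) ^ (k - (i + 1)) * (x + 1) ≤ (2 : ℝ) ^ (k - (i + 1)) * ((h : ℝ) + 1) :=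
      mul_le_mul_of_nonneg_left (by linarith) (by positivity)
    linarith
  have e2k : (2 : ℝ) ^ k = 2 ^ (k - (i + 1)) * 2 ^ (i + 1) := by
    rw [← pow_add]; congr 1; omega
  rcases Nat.eq_zero_or_pos i with rfl | hi
  · -- classical bound
    have h1 : LBr E k (0 + 1) ((k : ℝ) + 1) := by
      intro A hA
      exact_mod_cast LB_one hT hS hk A hA
    have h2 := key _ h1
    have e3 : (2 : ℝ) ^ k * ((3 * (k : ℝ) + 1) / 4 * (1 - (((0 + 1 : ℕ) : ℝ) - 1) / (2 * ((k : ℝ) - 1)))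
      - ((k : ℝ) - 3) / 2 ^ (0 + 1 + 1)) = 2 ^ (k - (0 + 1)) * ((k : ℝ) + 1 + 1) := by
      rw [e2k]; push_cast; simp; ring
    rw [e3]; exact h2
  · have hir : (1 : ℝ) ≤ i := by exact_mod_cast hi
    rcases lt_or_ge (Fintype.card V : ℝ) (3 / 4 * k * 2 ^ k) with hn | hn
    · have h2 := key _ (LBr_iter hT hS hk hk2 hn i)
      refine le_trans ?_ h2
      set δ : ℝ := 1 / (2 * ((k : ℝ) - 1)) with hδ
      have hδ0 : 0 < δ := by positivity
      have hδ1 : δ ≤ 1 / 2 := by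
        rw [hδ, div_le_div_iff₀ (by positivity) (by norm_num)]; linarith
      have hb : 1 + (i : ℝ) * (-δ) ≤ (1 + -δ) ^ i := one_add_mul_le_pow (by linarith) i
      have e3 : (2 : ℝ) ^ k * ((3 * (k : ℝ) + 1) / 4 * (1 - (((i + 1 : ℕ) : ℝ) - 1) / (2 * ((k : ℝ) - 1)))
        - ((k : ℝ) - 3) / 2 ^ (i + 1 + 1)) =
          2 ^ (k - (i + 1)) * (2 ^ i * (1 + (i : ℝ) * (-δ)) * ((3 * k + 1) / 2)
            - ((k : ℝ) - 1) / 2 + 1) := by
        rw [e2k, hδ]; push_cast; field_simp; ring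
      rw [e3]
      have h4 : (2 : ℝ) ^ i * (1 + (i : ℝ) * (-δ)) ≤ (2 * (1 - δ)) ^ i := by
        rw [mul_pow]
        apply mul_le_mul_of_nonneg_left _ (by positivity)
        simpa [sub_eq_add_neg] using hb
      have h5 : (2 : ℝ) ^ i * (1 + (i : ℝ) * (-δ)) * ((3 * k + 1) / 2)
          ≤ (2 * (1 - δ)) ^ i * ((3 * k + 1) / 2) :=
        mul_le_mul_of_nonneg_right h4 (by positivity)
      have h6 : (2 : ℝ) ^ (k - (i + 1)) * (2 ^ i * (1 + (i : ℝ) * (-δ)) * ((3 * k + 1) / 2)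
            - ((k : ℝ) - 1) / 2 + 1) ≤ 2 ^ (k - (i + 1)) * ((2 * (1 - δ)) ^ i * ((3 * k + 1) / 2)
            - ((k : ℝ) - 1) / 2 + 1) :=
        mul_le_mul_of_nonneg_left (by linarith) (by positivity)
      linarith
    · refine le_trans ?_ hn
      have hpk : (0 : ℝ) < 2 ^ k := by positivity
      have h4 : (3 * (k : ℝ) + 1) / 4 * (1 - (((i + 1 : ℕ) : ℝ) - 1) / (2 * ((k : ℝ) - 1)))
          ≤ (3 * (k : ℝ) + 1) / 4 - 3 / 8 - 1 / (2 * ((k : ℝ) - 1)) := by
        have h5 : 1 / (2 * ((k : ℝ) - 1)) ≤ (((i + 1 : ℕ) : ℝ) - 1) / (2 * ((k : ℝ) - 1)) := by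
          apply div_le_div_of_nonneg_right _ (by positivity)
          push_cast; linarith
        have h6 : (3 * (k : ℝ) + 1) / 4 * (1 - (((i + 1 : ℕ) : ℝ) - 1) / (2 * ((k : ℝ) - 1)))
            ≤ (3 * (k : ℝ) + 1) / 4 * (1 - 1 / (2 * ((k : ℝ) - 1))) :=
          mul_le_mul_of_nonneg_left (by linarith) (by positivity)
        have h7 : (3 * (k : ℝ) + 1) / 4 * (1 - 1 / (2 * ((k : ℝ) - 1)))
            = (3 * (k : ℝ) + 1) / 4 - 3 / 8 - 1 / (2 * ((k : ℝ) - 1)) := by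
          field_simp; ring
        linarith
      have h8 : (3 - (k : ℝ)) / 2 ^ (i + 1 + 1) ≤ 1 / 8 := by
        rw [div_le_div_iff₀ (by positivity) (by norm_num)]
        have h9 : (8 : ℝ) ≤ 2 ^ (i + 1 + 1) := by
          calc (8 : ℝ) = 2 ^ 3 := by norm_num
            _ ≤ 2 ^ (i + 1 + 1) := pow_le_pow_right₀ (by norm_num) (by omega)
        nlinarith
      have h10 : 0 < 1 / (2 * ((k : ℝ) - 1)) := by positivity
      have h11 : (3 * (k : ℝ) + 1) / 4 * (1 - (((i + 1 : ℕ) : ℝ) - 1) / (2 * ((k : ℝ) - 1)))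
        - ((k : ℝ) - 3) / 2 ^ (i + 1 + 1) ≤ 3 / 4 * k := by
        have e4 : ((k : ℝ) - 3) / 2 ^ (i + 1 + 1) = - ((3 - (k : ℝ)) / 2 ^ (i + 1 + 1)) := by ring
        rw [e4]; linarith
      nlinarith

/-- Asymptotic form: the constant `3/4`. -/
theorem asymptotic (ε : ℝ) (hε : 0 < ε) :
    ∃ K : ℕ, ∀ k : ℕ, K ≤ k → ∀ (V : Type) [Fintype V] (E : V → V → Prop), IsTournament E →
      k ≤ Fintype.card V → HasS E k → (3 / 4 - ε) * k * 2 ^ k ≤ (Fintype.card V : ℝ) := by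
  obtain ⟨j, hj⟩ := exists_pow_lt_of_lt_one (show 0 < ε / 2 by linarith)
    (show (1 / 2 : ℝ) < 1 by norm_num)
  obtain ⟨K0, hK0⟩ := exists_nat_gt ((2 * (j : ℝ) + 4) / ε)
  refine ⟨max (max 4 (j + 1)) K0, ?_⟩
  intro k hk V _ E hT hkV hS
  have hk4 : 4 ≤ k := by omega
  have hkj : j + 1 ≤ k := by omega
  have hkK : K0 ≤ k := by omega
  have hk4r : (4 : ℝ) ≤ k := by exact_mod_cast hk4
  have hKr : (2 * (j : ℝ) + 4) / ε < k := hK0.trans_le (by exact_mod_cast hkK)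
  rw [div_lt_iff₀ hε] at hKr
  have h1 := closed_form hT hS hkV (by omega) (j + 1) (by omega) hkj
  refine le_trans ?_ h1
  have hk1 : 0 < (k : ℝ) - 1 := by linarith
  have hpk : (1 : ℝ) ≤ 2 ^ k := one_le_pow₀ (by norm_num)
  have h2 : ((k : ℝ) - 3) / 2 ^ (j + 1 + 1) ≤ ε / 2 * k := by
    have h3 : (1 : ℝ) / 2 ^ (j + 1 + 1) ≤ ε / 2 := by
      have h4 : (1 : ℝ) / 2 ^ (j + 1 + 1) ≤ (1 / 2) ^ j := by
        rw [one_div_pow, div_le_div_iff₀ (by positivity) (by positivity)]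
        have : (2 : ℝ) ^ j ≤ 2 ^ (j + 1 + 1) := pow_le_pow_right₀ (by norm_num) (by omega)
        linarith
      linarith
    have h5 : ((k : ℝ) - 3) / 2 ^ (j + 1 + 1) = ((k : ℝ) - 3) * (1 / 2 ^ (j + 1 + 1)) := by ring
    rw [h5]
    have h6 : ((k : ℝ) - 3) * (1 / 2 ^ (j + 1 + 1)) ≤ ((k : ℝ) - 3) * (ε / 2) :=
      mul_le_mul_of_nonneg_left h3 (by linarith)
    nlinarith
  have h3 : (3 * (k : ℝ) + 1) / 4 * (((j + 1 : ℕ) : ℝ) - 1) / (2 * ((k : ℝ) - 1)) ≤ j := by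
    rw [div_le_iff₀ (by positivity)]
    push_cast
    have hj0 : (0 : ℝ) ≤ j := by positivity
    nlinarith
  have h4 : (3 * (k : ℝ) + 1) / 4 * (1 - (((j + 1 : ℕ) : ℝ) - 1) / (2 * ((k : ℝ) - 1)))
      = (3 * (k : ℝ) + 1) / 4 - (3 * (k : ℝ) + 1) / 4 * (((j + 1 : ℕ) : ℝ) - 1) / (2 * ((k : ℝ) - 1)) := by
    ring
  rw [h4]
  have h5 : (3 / 4 - ε) * (k : ℝ) + 1 ≤ (3 * (k : ℝ) + 1) / 4 -
      (3 * (k : ℝ) + 1) / 4 * (((j + 1 : ℕ) : ℝ) - 1) / (2 * ((k : ℝ) - 1))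
      - ((k : ℝ) - 3) / 2 ^ (j + 1 + 1) := by
    nlinarith
  have h6 := mul_le_mul_of_nonneg_left h5 (show (0 : ℝ) ≤ 2 ^ k by positivity)
  nlinarith

/-- For `k ≥ 105` the closed form gives `93/128`. -/
theorem large_k {k : ℕ} (hT : IsTournament E) (hS : HasS E k) (hk : k ≤ Fintype.card V)
    (hk2 : 105 ≤ k) : 93 * k * 2 ^ k ≤ 128 * Fintype.card V := by
  have h1 := closed_form hT hS hk (by omega) 7 (by omega) (by omega)
  have hkr : (105 : ℝ) ≤ k := by exact_mod_cast hk2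
  have hk1 : 0 < (k : ℝ) - 1 := by linarith
  have hpk : (2 : ℝ) ^ 7 ≤ 2 ^ k := pow_le_pow_right₀ (by norm_num) (by omega)
  have h2 : (3 * (k : ℝ) + 1) / 4 * (1 - (((7 : ℕ) : ℝ) - 1) / (2 * ((k : ℝ) - 1)))
      = (3 * (k : ℝ) + 1) / 4 - 9 / 4 - 3 / ((k : ℝ) - 1) := by
    push_cast; field_simp; ring
  rw [h2] at h1
  have h3 : 3 / ((k : ℝ) - 1) ≤ 3 / 104 := by
    rw [div_le_div_iff₀ (by positivity) (by norm_num)]; linarith
  have h4 : 93 / 128 * (k : ℝ) + 1 / 128 ≤ (3 * (k : ℝ) + 1) / 4 - 9 / 4 - 3 / ((k : ℝ) - 1)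
      - ((k : ℝ) - 3) / 2 ^ (7 + 1) := by
    norm_num at h3 ⊢
    linarith
  have h5 := mul_le_mul_of_nonneg_left h4 (show (0 : ℝ) ≤ 2 ^ k by positivity)
  have h6 : (93 : ℝ) * k * 2 ^ k ≤ 128 * (Fintype.card V : ℝ) := by nlinarith
  exact_mod_cast h6

end

end Pool.Agent.H77.Schutte
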